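import Pool.Agent.Helper97.LD.Final

/-!
# Answer to Q2 of MP_dd3681_pr: there is no infinite sequence of Eves

For every finite measure `Λ` in the intensive regime with dust (in particular under the hypothesis
`-∫_{[0,1)} u log u ν(du) = ∞` of the problem) the `Λ` Fleming-Viot process does not admit an
infinite sequence of Eves.

`DustRegime L` says that `L = Λ` is a finite measure on `[0, 1]` with `Λ({0}) = 0`,
`∫ u⁻¹ Λ(du) < ∞` and `∫ u⁻² Λ(du) = ∞`.  The lookdown representation is built on the law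
`fvLaw c κ` of the driving Poisson point process and of the initial types, for any way
`ν = ∑ₖ c k • κ k` of writing the jump measure `ν(du) = u⁻² Λ(du)` with probability measures
`κ k` on `(0, 1]`; such a way always exists.  Almost surely all the histories (the finite lists
of the atoms which are relevant for the lowest levels) exist.
-/

namespace Pool.Agent.Results.MP_dd3681_pr.NoEves

open MeasureTheory ProbabilityTheory Pool.Agent.R946.LF Pool.Agent.Helper97.LD
open scoped NNReal

theorem result : ∀ L : Measure ℝ, DustRegime L →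
    (∃ (c : ℕ → ℝ≥0) (κ : ℕ → Measure ℝ), Splits L c κ) ∧
    ∀ (c : ℕ → ℝ≥0) (κ : ℕ → Measure ℝ), Splits L c κ →
      IsProbabilityMeasure (fvLaw c κ) ∧
      (∀ᵐ ω ∂(fvLaw c κ), ∀ (n : ℕ) (s : ℝ) (x : ℕ), ∃ l, IsHist (ω.1 n) s x l) ∧
      ¬ ∀ᵐ ω ∂(fvLaw c κ), HasEves ω.1 ω.2 := by
  intro L hL
  refine ⟨exists_splits hL, fun c κ h => ?_⟩
  obtain ⟨hh, hfin, h2⟩ := hyp_of_splits hL h
  refine ⟨prob_fvLaw hh.prob, ?_, ?_⟩
  · have h3 : ∀ᵐ w ∂(pathLaw c κ), ∀ (n : ℕ) (s : ℝ) (x : ℕ), ∃ l, IsHist (w n) s x l := by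
      rw [ae_all_iff]
      intro n
      exact ae_path hh.prob n (ae_hist hh)
    filter_upwards [ae_prod (q := fun _ => True) hh.prob h3 (ae_of_all _ fun _ => trivial)]
      with ω hω using hω.1
  · by_cases h1 : nu c κ {1} = 0
    · exact no_eves hh hfin h1 h2
    · exact no_eves_full hh h1

end Pool.Agent.Results.MP_dd3681_pr.NoEves
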